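import Pool.Agent.R399.TW.Opt
import Pool.Agent.R399.TW.InstE
import Pool.Agent.Y767.CA.As

/-!
# Tempered Euler products whose twists have the analytic properties of automorphic L-functions
-/

set_option autoImplicit false

namespace Pool.Agent.R399.TV

open Finset Filter Topology Complex MeasureTheory
open ArithmeticFunction (vonMangoldt)
open Pool.Agent.Y767.CA (cf GGc FEc Gd GGc_ne eps_of summable_lin)
open Pool.Agent.R399.TW
open scoped ComplexConjugate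

/-- the data -/
structure FD (m : ℕ) where
  N : ℕ
  α : ℕ → Fin m → ℂ
  μ : ℂ → Fin m → ℂ
  Λ : (q : ℕ) → DirichletCharacter ℂ q → ℂ → ℂ
  N_pos : 1 ≤ N
  α_le : ∀ p : ℕ, p.Prime → ∀ j, ‖α p j‖ ≤ 1
  μ_re : ∀ ε : ℂ, ε = 1 ∨ ε = -1 → ∀ j, -1 / 2 < (μ ε j).re
  entire : ∀ (q : ℕ) (χ : DirichletCharacter ℂ q), 2 ≤ q → Nat.Coprime q N → χ.IsPrimitive →
    Differentiable ℂ (Λ q χ)
  bdd : ∀ (q : ℕ) (χ : DirichletCharacter ℂ q), 2 ≤ q → Nat.Coprime q N → χ.IsPrimitive →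
    ∀ a b : ℝ, ∃ C : ℝ, ∀ s : ℂ, a ≤ s.re → s.re ≤ b → ‖Λ q χ s‖ ≤ C
  fe : ∀ (q : ℕ) (χ : DirichletCharacter ℂ q), 2 ≤ q → Nat.Coprime q N → χ.IsPrimitive →
    ∃ w : ℂ, ‖w‖ = 1 ∧ ∀ s : ℂ, Λ q χ (1 - s) = w * conj (Λ q χ (conj s))
  euler : ∀ (q : ℕ) (χ : DirichletCharacter ℂ q), 2 ≤ q → Nat.Coprime q N → χ.IsPrimitive →
    ∀ s : ℂ, 1 < s.re → HasProd (fun p : Nat.Primes => ∏ j, (1 - χ ((p : ℕ) : ZMod q) * α p j *
      ((p : ℕ) : ℂ) ^ (-s))⁻¹) (Λ q χ s / GGc ((N : ℝ) * (q : ℝ) ^ m) (μ (χ (-1))) s)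

variable {m : ℕ} (D : FD m)

/-- the conductor of the twist -/
noncomputable def FD.R (q : ℕ) : ℝ := (D.N : ℝ) * (q : ℝ) ^ m

lemma FD.R_pos {q : ℕ} (hq : 2 ≤ q) : 0 < D.R q := by
  have h1 : (1 : ℝ) ≤ D.N := by exact_mod_cast D.N_pos
  have h2 : (0 : ℝ) < q := by exact_mod_cast (show 0 < q by omega)
  unfold FD.R
  positivity

/-- the finite part of the L-function -/
noncomputable def FD.F (q : ℕ) (χ : DirichletCharacter ℂ q) (s : ℂ) : ℂ :=
  D.Λ q χ s * (((D.R q : ℝ) : ℂ) ^ (s / 2))⁻¹ * ∏ j, (Gammaℝ (s + D.μ (χ (-1)) j))⁻¹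

lemma FD.F_eq (q : ℕ) (χ : DirichletCharacter ℂ q) (s : ℂ) :
    D.F q χ s = D.Λ q χ s / GGc (D.R q) (D.μ (χ (-1))) s := by
  unfold FD.F GGc
  rw [Finset.prod_inv_distrib, div_eq_mul_inv (D.Λ q χ s), mul_inv, mul_assoc]

lemma FD.diff {q : ℕ} (χ : DirichletCharacter ℂ q) (hq : 2 ≤ q) (hN : Nat.Coprime q D.N)
    (hχ : χ.IsPrimitive) : Differentiable ℂ (D.F q χ) := by
  have hR := D.R_pos hq
  have hRc : ((D.R q : ℝ) : ℂ) ≠ 0 := ofReal_ne_zero.mpr hR.ne'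
  have h1 : Differentiable ℂ fun s : ℂ => (((D.R q : ℝ) : ℂ) ^ (s / 2))⁻¹ := by
    have h2 : Differentiable ℂ fun s : ℂ => ((D.R q : ℝ) : ℂ) ^ (s / 2) := fun s =>
      (differentiableAt_id.div_const 2).const_cpow (Or.inl hRc)
    exact h2.inv fun s => Pool.Agent.Y772.FE.cpow_R_ne hR _
  have h3 : Differentiable ℂ fun s : ℂ => ∏ j, (Gammaℝ (s + D.μ (χ (-1)) j))⁻¹ := by
    have : ∀ j, Differentiable ℂ fun s : ℂ => (Gammaℝ (s + D.μ (χ (-1)) j))⁻¹ := fun j =>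
      differentiable_Gammaℝ_inv.comp (differentiable_id.add_const _)
    fun_prop (disch := exact this _)
  exact ((D.entire q χ hq hN hχ).mul h1).mul h3

/-- the size of the parameters -/
noncomputable def FD.W : ℝ := 1 + ∑ j, (‖D.μ 1 j‖ + ‖D.μ (-1) j‖)

lemma FD.W_ge : 1 ≤ D.W := by
  unfold FD.W
  have : 0 ≤ ∑ j, (‖D.μ 1 j‖ + ‖D.μ (-1) j‖) := Finset.sum_nonneg fun j _ => by positivity
  linarith

lemma FD.norm_μ {ε : ℂ} (hε : ε = 1 ∨ ε = -1) (j : Fin m) : ‖D.μ ε j‖ + 1 ≤ D.W := by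
  have h1 := Finset.single_le_sum (f := fun j => ‖D.μ 1 j‖ + ‖D.μ (-1) j‖)
    (fun j _ => by positivity) (Finset.mem_univ j)
  unfold FD.W
  have h2 := norm_nonneg (D.μ 1 j)
  have h3 := norm_nonneg (D.μ (-1) j)
  rcases hε with rfl | rfl <;> linarith

theorem FD.fec {q : ℕ} (χ : DirichletCharacter ℂ q) (hq : 2 ≤ q) (hN : Nat.Coprime q D.N)
    (hχ : χ.IsPrimitive) : FEc (D.R q) (D.μ (χ (-1))) (D.F q χ) := by
  have hR := D.R_pos hq
  have key : ∀ z : ℂ, Gd (D.μ (χ (-1))) z →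
      GGc (D.R q) (D.μ (χ (-1))) z * D.F q χ z = D.Λ q χ z := by
    intro z hz
    rw [D.F_eq, mul_div_cancel₀ _ (GGc_ne hR hz)]
  refine ⟨D.diff χ hq hN hχ, ?_, ?_⟩
  · obtain ⟨w, hw, hfe⟩ := D.fe q χ hq hN hχ
    refine ⟨w, hw, fun s hs => ?_⟩
    have hs2 : Gd (D.μ (χ (-1))) (1 - conj s) := by
      intro i
      have : (1 - conj s).im = s.im := by simp
      rw [this]
      exact hs i
    rw [key s hs, key _ hs2]
    have h1 := hfe (1 - s)
    have e1 : (1 - (1 - s)) = s := by ring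
    have e2 : conj (1 - s) = 1 - conj s := by simp
    rw [e1, e2] at h1
    exact h1
  · intro a b
    obtain ⟨C, hC⟩ := D.bdd q χ hq hN hχ a b
    refine ⟨C, fun s h1 h2 h3 => ?_⟩
    have hs : Gd (D.μ (χ (-1))) s := by
      intro i h
      have := h3 i
      rw [h, abs_zero] at this
      linarith
    rw [key s hs]
    exact hC _ h1 h2

/-- the coefficients are bounded -/
lemma FD.cf_le (n : ℕ) : ‖cf (fun k j => if k.Prime then D.α k j else 0) n‖ ≤ m := by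
  unfold cf
  refine (norm_sum_le _ _).trans ?_
  have h1 : ∀ j ∈ (univ : Finset (Fin m)), ‖(if n.minFac.Prime then D.α n.minFac j else 0) ^
      (n.factorization n.minFac)‖ ≤ 1 := by
    intro j _
    rw [norm_pow]
    split_ifs with h
    · exact pow_le_one₀ (norm_nonneg _) (D.α_le _ h j)
    · rw [norm_zero]
      exact pow_le_one₀ le_rfl zero_le_one
  refine (Finset.sum_le_card_nsmul _ _ 1 h1).trans ?_
  simp

lemma summ_of_bdd {c : ℕ → ℂ} {d : ℝ} (hd : ∀ n, ‖c n‖ ≤ d) (σ : ℝ) (hσ : 1 < σ) :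
    Summable fun n : ℕ => vonMangoldt n * ‖c n‖ ^ 2 * (n : ℝ) ^ (-σ) := by
  have hd0 : 0 ≤ d := (norm_nonneg _).trans (hd 0)
  refine Summable.of_nonneg_of_le (fun n => ?_) (fun n => ?_)
    ((Pool.Agent.Y767.CA.summable_vm hσ).mul_left (d ^ 2))
  · have := vm_nn n
    positivity
  · have h1 := vm_nn n
    have h2 : ‖c n‖ ^ 2 ≤ d ^ 2 := pow_le_pow_left₀ (norm_nonneg _) (hd n) 2
    calc vonMangoldt n * ‖c n‖ ^ 2 * (n : ℝ) ^ (-σ)
        ≤ vonMangoldt n * d ^ 2 * (n : ℝ) ^ (-σ) := by gcongr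
      _ = _ := by ring

/-- the members -/
theorem FD.mem {q : ℕ} (χ : DirichletCharacter ℂ q) (hq : 2 ≤ q) (hN : Nat.Coprime q D.N)
    (hχ : χ.IsPrimitive) :
    Mem (cf (fun k j => if k.Prime then D.α k j else 0)) (D.R q) (3 * (1 + (D.W + 2))) m (chs χ)
      (D.F q χ) := by
  have hR := D.R_pos hq
  have hW := D.W_ge
  have hS := summ_of_bdd D.cf_le
  have hL : Lin (cf (fun k j => if k.Prime then D.α k j else 0)) := fun σ hσ =>
    summable_lin hS hσ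
  have hmem : Mem (cf (fun k j => if k.Prime then D.α k j else 0)) (D.R q)
      (3 * (1 + (D.W + 2))) (Fintype.card (Fin m)) (chs χ) (D.F q χ) := by
    refine mem_of_fec hR (μ := D.μ (χ (-1))) (D.μ_re _ (eps_of χ))
      (fun i => by linarith [D.norm_μ (eps_of χ) i]) (by linarith) (D.fec χ hq hN hχ) hL
      (chs_mul χ) (chs_one χ) (chs_le χ) ?_
    refine ser_of_euler (fun p hp j => ?_) hS (chs_one χ) (chs_mul χ) (chs_le χ)
      (D.diff χ hq hN hχ) fun s hs => ?_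
    · rw [if_pos hp]
      refine (D.α_le p hp j).trans ?_
      rw [Real.one_le_sqrt]
      exact_mod_cast hp.one_lt.le
    · have h1 := D.euler q χ hq hN hχ s hs
      rw [D.F_eq]
      have h2 : (fun p : Nat.Primes => ∏ j, (1 - chs χ (p : ℕ) *
          (if (p : ℕ).Prime then D.α p j else 0) * ((p : ℕ) : ℂ) ^ (-s))⁻¹) =
          fun p : Nat.Primes => ∏ j, (1 - χ ((p : ℕ) : ZMod q) * D.α p j *
            ((p : ℕ) : ℂ) ^ (-s))⁻¹ := by
        funext p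
        refine Finset.prod_congr rfl fun j _ => ?_
        rw [if_pos p.2]
        rfl
      rw [h2]
      exact h1
  rw [Fintype.card_fin] at hmem
  exact hmem

/-- the family -/
theorem FD.fam : Fm m D.N D.Λ := by
  have hS := summ_of_bdd D.cf_le
  have hL : Lin (cf (fun k j => if k.Prime then D.α k j else 0)) := fun σ hσ =>
    summable_lin hS hσ
  have hW := D.W_ge
  refine ⟨cf (fun k j => if k.Prime then D.α k j else 0), D.N, 3 * (1 + (D.W + 2)),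
    96 * (m : ℝ) ^ 2, Nat.cast_nonneg _, by linarith, hL, sqb_of_bdd D.cf_le, ?_⟩
  intro q χ hq hN hχ
  refine ⟨D.F q χ, D.mem χ hq hN hχ, fun s _ hs => ?_, fun s _ _ hs => ?_⟩
  · rw [D.F_eq, hs, zero_div]
  · obtain ⟨w, hw, hfe⟩ := D.fe q χ hq hN hχ
    have h1 := hfe (conj s)
    rw [Complex.conj_conj, hs, map_zero, mul_zero] at h1
    rw [D.F_eq, h1, zero_div]

lemma Fm.of_dvd {m N N' : ℕ} {L : (q : ℕ) → DirichletCharacter ℂ q → ℂ → ℂ} (h : Fm m N L)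
    (hN : N ∣ N') : Fm m N' L := by
  obtain ⟨c, R₀, V, C, h1, h2, h3, h4, h5⟩ := h
  exact ⟨c, R₀, V, C, h1, h2, h3, h4, fun q χ hq hqN hχ =>
    h5 q χ hq (Nat.Coprime.coprime_dvd_right hN hqN) hχ⟩

end Pool.Agent.R399.TV
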