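import Pool.Agent.R399.TV.Fd
import Pool.Agent.R399.TW.Cor

/-!
# Virtual products of families
-/

set_option autoImplicit false

namespace Pool.Agent.R399.TV

open Finset Filter Topology Complex MeasureTheory
open Pool.Agent.R399.TW
open scoped ComplexConjugate

/-- the region `Re s > 3/2`, or `Re s > 1 + δ` and `|Im s| < T` -/
def reg (δ T : ℝ) : Set ℂ := {s : ℂ | 3 / 2 < s.re ∨ (1 + δ < s.re ∧ |s.im| < T)}

/-- `f` has a continuation to the region, holomorphic and without zeros -/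
def Cont (f : ℂ → ℂ) (δ T : ℝ) : Prop :=
  ∃ G : ℂ → ℂ, DifferentiableOn ℂ G (reg δ T) ∧ (∀ s ∈ reg δ T, G s ≠ 0) ∧
    ∀ s : ℂ, 3 / 2 < s.re → G s = f s

variable {r : ℕ} {m : Fin r → ℕ}

/-- one character -/
theorem cont_of {D : ∀ i, FD (m i)} {n : Fin r → ℤ} {q : ℕ} (χ : DirichletCharacter ℂ q)
    (hq : 2 ≤ q) (hN : ∀ i, Nat.Coprime q (D i).N) (hχ : χ.IsPrimitive) {f : ℂ → ℂ}
    (hf : ∀ s : ℂ, 1 < s.re → f (s + 1 / 2) = ∏ i, (D i).F q χ s ^ n i) {δ T : ℝ} (hδ : 0 ≤ δ)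
    (hfar : ∀ i, ¬ Far ((D i).Λ q χ) δ T) : Cont f δ T := by
  have hne : ∀ i, ∀ s ∈ reg δ T, (D i).F q χ (s - 1 / 2) ≠ 0 := by
    intro i s hs
    have hre : (s - 1 / 2).re = s.re - 1 / 2 := by simp
    have him : (s - 1 / 2).im = s.im := by simp
    rcases hs with hs | ⟨hs, ht⟩
    · refine Mem.ne ((D i).mem χ hq (hN i) hχ) ?_ ?_
      · exact fun σ hσ => Pool.Agent.Y767.CA.summable_lin (summ_of_bdd (D i).cf_le) hσ
      · rw [hre]
        linarith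
    · intro h0
      rw [(D i).F_eq, div_eq_zero_iff] at h0
      rcases h0 with h0 | h0
      · refine hfar i ⟨s - 1 / 2, ?_, ?_, ?_, h0⟩
        · rw [hre]
          linarith
        · rw [him]
          exact ht.le
        · rw [hre]
          exact le_trans (by linarith) (le_abs_self _)
      · unfold Pool.Agent.Y767.CA.GGc at h0
        rcases mul_eq_zero.1 h0 with h0 | h0
        · exact Pool.Agent.Y772.FE.cpow_R_ne ((D i).R_pos hq) _ h0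
        · rw [Finset.prod_eq_zero_iff] at h0
          obtain ⟨j, -, hj⟩ := h0
          refine Gammaℝ_ne_zero_of_re_pos ?_ hj
          have := (D i).μ_re _ (Pool.Agent.Y767.CA.eps_of χ) j
          rw [add_re, hre]
          linarith
  refine ⟨fun s => ∏ i, (D i).F q χ (s - 1 / 2) ^ n i, ?_, ?_, ?_⟩
  · intro s hs
    refine DifferentiableAt.differentiableWithinAt ?_
    refine DifferentiableAt.fun_finsetProd fun i _ => ?_
    have h1 : DifferentiableAt ℂ (fun s : ℂ => (D i).F q χ (s - 1 / 2)) s :=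
      ((D i).diff χ hq (hN i) hχ).differentiableAt.comp s
        (differentiableAt_id.sub_const (1 / 2 : ℂ))
    exact h1.zpow (Or.inl (hne i s hs))
  · intro s hs
    exact Finset.prod_ne_zero_iff.2 fun i _ => zpow_ne_zero _ (hne i s hs)
  · intro s hs
    have h1 := hf (s - 1 / 2) (by simp; linarith)
    rw [sub_add_cancel] at h1
    exact h1.symm

/-- monotonicity of the exponent -/
lemma ex2_mono {m M : ℕ} (h : m ≤ M) {δ : ℝ} (h0 : 0 ≤ δ) (h1 : δ ≤ 1 / 2) :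
    ex2 m δ ≤ ex2 M δ := by
  have hmM : (m : ℝ) ≤ M := by exact_mod_cast h
  have e0 : 0 ≤ 1 - 2 * δ := by linarith
  unfold ex2
  split_ifs with h2 h3 h3
  · have : 2 * (1 - 2 * δ) * (3 + ((m : ℝ) + 1) * δ) ≤ 2 * (1 - 2 * δ) * (3 + ((M : ℝ) + 1) * δ) := by
      gcongr
    exact div_le_div_of_nonneg_right this (by linarith)
  · have hm : (m : ℝ) ≤ 3 := by exact_mod_cast h2
    have hM : (4 : ℝ) ≤ M := by exact_mod_cast (by omega : 4 ≤ M)
    rw [div_le_div_iff₀ (by linarith) (by linarith)]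
    have e1 : (3 + ((m : ℝ) + 1) * δ) * (5 - 2 * δ) ≤ (5 + 2 * (M : ℝ) * δ) * (3 - δ) := by
      have e2 : (3 + ((m : ℝ) + 1) * δ) ≤ 3 + 4 * δ := by nlinarith
      have e3 : (5 + 8 * δ) ≤ 5 + 2 * (M : ℝ) * δ := by nlinarith
      have e4 : (3 + ((m : ℝ) + 1) * δ) * (5 - 2 * δ) ≤ (3 + 4 * δ) * (5 - 2 * δ) :=
        mul_le_mul_of_nonneg_right e2 (by linarith)
      have e5 : (5 + 8 * δ) * (3 - δ) ≤ (5 + 2 * (M : ℝ) * δ) * (3 - δ) :=
        mul_le_mul_of_nonneg_right e3 (by linarith)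
      nlinarith
    have e6 : 0 ≤ 2 * (1 - 2 * δ) := by linarith
    nlinarith [mul_le_mul_of_nonneg_left e1 e6]
  · omega
  · have : 2 * (1 - 2 * δ) * (5 + 2 * (m : ℝ) * δ) ≤ 2 * (1 - 2 * δ) * (5 + 2 * (M : ℝ) * δ) := by
      gcongr
    exact div_le_div_of_nonneg_right this (by linarith)

lemma ex1_mono {m M : ℕ} (h : m ≤ M) {δ : ℝ} (h0 : 0 ≤ δ) (h1 : δ ≤ 1 / 2) :
    ex1 m δ ≤ ex1 M δ := by
  have hmM : (m : ℝ) ≤ M := by exact_mod_cast h
  have e0 : 0 ≤ 1 - 2 * δ := by linarith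
  unfold ex1
  have : (1 - 2 * δ) * (5 + 4 * (m : ℝ) * δ) ≤ (1 - 2 * δ) * (5 + 4 * (M : ℝ) * δ) := by
    gcongr
  exact div_le_div_of_nonneg_right this (by linarith)

open Classical in
lemma count_union {N Q : ℕ} {S : (q : ℕ) → DirichletCharacter ℂ q → Prop}
    {S' : Fin r → (q : ℕ) → DirichletCharacter ℂ q → Prop}
    (h : ∀ (q : ℕ) (χ : DirichletCharacter ℂ q), 2 ≤ q → Nat.Coprime q N → χ.IsPrimitive →
      S q χ → ∃ i, S' i q χ) : count N Q S ≤ ∑ i, count N Q (S' i) := by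
  rw [count_eq]
  simp only [count_eq]
  refine le_trans (Finset.card_le_card ?_) Finset.card_biUnion_le
  intro x hx
  rw [Finset.mem_filter, mem_idx] at hx
  obtain ⟨⟨⟨h1, h2⟩, h3, h4⟩, h5⟩ := hx
  obtain ⟨i, hi⟩ := h x.1 x.2 h1 h3 h4 h5
  rw [Finset.mem_biUnion]
  exact ⟨i, Finset.mem_univ i, by
    rw [Finset.mem_filter, mem_idx]
    exact ⟨⟨⟨h1, h2⟩, h3, h4⟩, hi⟩⟩

open Classical in
lemma countq_union {q : ℕ} {S : DirichletCharacter ℂ q → Prop}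
    {S' : Fin r → DirichletCharacter ℂ q → Prop}
    (h : ∀ χ : DirichletCharacter ℂ q, χ.IsPrimitive → S χ → ∃ i, S' i χ) :
    countq q S ≤ ∑ i, countq q (S' i) := by
  simp only [← card_idq]
  refine le_trans (Finset.card_le_card ?_) Finset.card_biUnion_le
  intro x hx
  obtain ⟨χ, rfl, h1, h2⟩ := mem_idq hx
  obtain ⟨i, hi⟩ := h χ h1 h2
  rw [Finset.mem_biUnion]
  refine ⟨i, Finset.mem_univ i, ?_⟩
  unfold idq
  rw [Finset.mem_map]
  exact ⟨χ, by rw [Finset.mem_filter]; exact ⟨Finset.mem_univ _, h1, hi⟩, rfl⟩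

/-- the hypothesis: an Euler product which is a product of powers of the members of families -/
structure VP (D : ∀ i, FD (m i)) (n : Fin r → ℤ) (N : ℕ)
    (f : (q : ℕ) → DirichletCharacter ℂ q → ℂ → ℂ) : Prop where
  dvd : ∀ i, (D i).N ∣ N
  fac : ∀ (q : ℕ) (χ : DirichletCharacter ℂ q), 2 ≤ q → Nat.Coprime q N → χ.IsPrimitive →
    ∀ s : ℂ, 1 < s.re → f q χ (s + 1 / 2) = ∏ i, (D i).F q χ s ^ n i

variable {D : ∀ i, FD (m i)} {n : Fin r → ℤ} {N : ℕ}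
  {f : (q : ℕ) → DirichletCharacter ℂ q → ℂ → ℂ}

lemma VP.far (h : VP D n N f) {δ T : ℝ} (hδ : 0 ≤ δ) {q : ℕ} (χ : DirichletCharacter ℂ q)
    (hq : 2 ≤ q) (hN : Nat.Coprime q N) (hχ : χ.IsPrimitive) (hc : ¬ Cont (f q χ) δ T) :
    ∃ i, Far ((D i).Λ q χ) δ T := by
  by_contra hcon
  rw [not_exists] at hcon
  exact hc (cont_of χ hq (fun i => Nat.Coprime.coprime_dvd_right (h.dvd i) hN) hχ
    (h.fac q χ hq hN hχ) hδ hcon)

/-- all moduli -/
theorem VP.dens2 (h : VP D n N f) {M : ℕ} (hM : ∀ i, m i ≤ M) :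
    ∃ C B : ℝ, 0 ≤ C ∧ 0 ≤ B ∧ ∀ (Q : ℕ) (δ T : ℝ), 1 ≤ Q → 0 ≤ δ → δ ≤ 1 / 2 → 0 ≤ T →
      (count N Q (fun q χ => ¬ Cont (f q χ) δ T) : ℝ) ≤
        C * (1 + T) ^ (2 * M + 1) * (1 + Real.log Q) ^ B * (Q : ℝ) ^ (ex2 M δ) := by
  have h1 := fun i => Pool.Agent.R399.TW.dens2 (Fm.of_dvd (D i).fam (h.dvd i))
  choose C B hC hB hb using h1
  refine ⟨∑ i, C i, ∑ i, B i, Finset.sum_nonneg fun i _ => hC i,
    Finset.sum_nonneg fun i _ => hB i, fun Q δ T hQ hδ hδ1 hT => ?_⟩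
  have hu := count_union (r := r) (N := N) (Q := Q) (S := fun q χ => ¬ Cont (f q χ) δ T)
    (S' := fun i q χ => Far ((D i).Λ q χ) δ T) fun q χ hq hqN hχ hc => h.far hδ χ hq hqN hχ hc
  have hu' : (count N Q (fun q χ => ¬ Cont (f q χ) δ T) : ℝ) ≤
      ∑ i, (count N Q (fun q χ => Far ((D i).Λ q χ) δ T) : ℝ) := by exact_mod_cast hu
  refine hu'.trans ?_
  rw [Finset.sum_mul, Finset.sum_mul, Finset.sum_mul]
  refine Finset.sum_le_sum fun i _ => (hb i Q δ T hQ hδ hδ1 hT).trans ?_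
  have hq1 : (1 : ℝ) ≤ Q := by exact_mod_cast hQ
  have hl := Real.log_nonneg hq1
  have e1 : (1 + T) ^ (2 * m i + 1) ≤ (1 + T) ^ (2 * M + 1) :=
    pow_le_pow_right₀ (by linarith) (by have := hM i; omega)
  have e2 : (1 + Real.log Q) ^ B i ≤ (1 + Real.log Q) ^ (∑ i, B i) :=
    Real.rpow_le_rpow_of_exponent_le (by linarith)
      (Finset.single_le_sum (fun i _ => hB i) (Finset.mem_univ i))
  have e3 : (Q : ℝ) ^ ex2 (m i) δ ≤ (Q : ℝ) ^ ex2 M δ :=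
    Real.rpow_le_rpow_of_exponent_le hq1 (ex2_mono (hM i) hδ hδ1)
  have := hC i
  gcongr

/-- one modulus -/
theorem VP.dens1 (h : VP D n N f) {M : ℕ} (hM : ∀ i, m i ≤ M) (hm : ∀ i, 2 ≤ m i) :
    ∃ C B : ℝ, 0 ≤ C ∧ 0 ≤ B ∧ ∀ (q : ℕ) (δ T : ℝ), 2 ≤ q → Nat.Coprime q N → 0 ≤ δ →
      δ ≤ 1 / 2 → 0 ≤ T →
      (countq q (fun χ => ¬ Cont (f q χ) δ T) : ℝ) ≤
        C * (1 + T) ^ (2 * M + 1) * (1 + Real.log q) ^ B * (q : ℝ) ^ (ex1 M δ) := by
  have h1 := fun i => Pool.Agent.R399.TW.dens1 (hm i) (Fm.of_dvd (D i).fam (h.dvd i))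
  choose C B hC hB hb using h1
  refine ⟨∑ i, C i, ∑ i, B i, Finset.sum_nonneg fun i _ => hC i,
    Finset.sum_nonneg fun i _ => hB i, fun q δ T hq hqN hδ hδ1 hT => ?_⟩
  have hu := countq_union (r := r) (q := q) (S := fun χ => ¬ Cont (f q χ) δ T)
    (S' := fun i χ => Far ((D i).Λ q χ) δ T) fun χ hχ hc => h.far hδ χ hq hqN hχ hc
  have hu' : (countq q (fun χ => ¬ Cont (f q χ) δ T) : ℝ) ≤
      ∑ i, (countq q (fun χ => Far ((D i).Λ q χ) δ T) : ℝ) := by exact_mod_cast hu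
  refine hu'.trans ?_
  rw [Finset.sum_mul, Finset.sum_mul, Finset.sum_mul]
  refine Finset.sum_le_sum fun i _ => (hb i q δ T hq hqN hδ hδ1 hT).trans ?_
  have hq1 : (1 : ℝ) ≤ q := by exact_mod_cast (by omega : 1 ≤ q)
  have hl := Real.log_nonneg hq1
  have e1 : (1 + T) ^ (2 * m i + 1) ≤ (1 + T) ^ (2 * M + 1) :=
    pow_le_pow_right₀ (by linarith) (by have := hM i; omega)
  have e2 : (1 + Real.log q) ^ B i ≤ (1 + Real.log q) ^ (∑ i, B i) :=
    Real.rpow_le_rpow_of_exponent_le (by linarith)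
      (Finset.single_le_sum (fun i _ => hB i) (Finset.mem_univ i))
  have e3 : (q : ℝ) ^ ex1 (m i) δ ≤ (q : ℝ) ^ ex1 M δ :=
    Real.rpow_le_rpow_of_exponent_le hq1 (ex1_mono (hM i) hδ hδ1)
  have := hC i
  gcongr

lemma Cont.mono {f : ℂ → ℂ} {δ δ' T T' : ℝ} (h : Cont f δ T) (hδ : δ ≤ δ') (hT : T' ≤ T) :
    Cont f δ' T' := by
  obtain ⟨G, h1, h2, h3⟩ := h
  have hsub : reg δ' T' ⊆ reg δ T := by
    rintro s (hs | ⟨hs, ht⟩)
    · exact Or.inl hs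
    · exact Or.inr ⟨by linarith, by linarith⟩
  exact ⟨G, h1.mono hsub, fun s hs => h2 s (hsub hs), h3⟩

lemma count_mono {N Q : ℕ} {S S' : (q : ℕ) → DirichletCharacter ℂ q → Prop}
    (h : ∀ (q : ℕ) (χ : DirichletCharacter ℂ q), S q χ → S' q χ) : count N Q S ≤ count N Q S' := by
  classical
  rw [count_eq, count_eq]
  exact Finset.card_le_card fun x hx => by
    rw [Finset.mem_filter] at hx ⊢
    exact ⟨hx.1, h _ _ hx.2⟩

lemma countq_mono {q : ℕ} {S S' : DirichletCharacter ℂ q → Prop}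
    (h : ∀ χ : DirichletCharacter ℂ q, S χ → S' χ) : countq q S ≤ countq q S' := by
  classical
  rw [← card_idq, ← card_idq]
  refine Finset.card_le_card fun x hx => ?_
  obtain ⟨χ, rfl, h1, h2⟩ := mem_idq hx
  unfold idq
  rw [Finset.mem_map]
  exact ⟨χ, by rw [Finset.mem_filter]; exact ⟨Finset.mem_univ _, h1, h _ h2⟩, rfl⟩

/-- a power saving from a density theorem -/
lemma saving {M : ℕ} {C B E p : ℝ} (hC : 0 ≤ C) (hB : 0 ≤ B) (hE : E < p) :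
    ∃ η C' : ℝ, 0 < η ∧ ∀ q : ℝ, 1 ≤ q →
      C * (1 + q ^ η) ^ (2 * M + 1) * (1 + Real.log q) ^ B * q ^ E ≤ C' * q ^ (p - η) := by
  set κ : ℝ := p - E with hκ
  have hκ0 : 0 < κ := by rw [hκ]; linarith
  obtain ⟨C₁, hC₁, hlog⟩ := log_pow_le hB (show 0 < κ / 3 by positivity)
  set a : ℝ := κ / (3 * (2 * M + 1)) with ha
  have hM : (0 : ℝ) < 2 * M + 1 := by positivity
  have ha0 : 0 < a := by rw [ha]; positivity
  have ha1 : a * (2 * M + 1) = κ / 3 := by rw [ha]; field_simp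
  have ha2 : a ≤ κ / 3 := by
    rw [← ha1]
    have : (1 : ℝ) ≤ 2 * M + 1 := by
      have : (0 : ℝ) ≤ M := by positivity
      linarith
    nlinarith
  refine ⟨a, C * 2 ^ (2 * M + 1) * C₁, ha0, fun q hq => ?_⟩
  have hq0 : (0 : ℝ) < q := by linarith
  have h1 : (1 : ℝ) ≤ q ^ a := Real.one_le_rpow hq ha0.le
  have h2 : (1 + q ^ a) ^ (2 * M + 1) ≤ 2 ^ (2 * M + 1) * q ^ (κ / 3) := by
    calc (1 + q ^ a) ^ (2 * M + 1) ≤ (2 * q ^ a) ^ (2 * M + 1) :=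
          pow_le_pow_left₀ (by positivity) (by linarith) _
      _ = 2 ^ (2 * M + 1) * q ^ (κ / 3) := by
          rw [mul_pow, ← Real.rpow_natCast (q ^ a), ← Real.rpow_mul hq0.le]
          congr 2
          push_cast
          exact ha1
  have h3 := hlog q hq
  have hl := Real.log_nonneg hq
  calc C * (1 + q ^ a) ^ (2 * M + 1) * (1 + Real.log q) ^ B * q ^ E
      ≤ C * (2 ^ (2 * M + 1) * q ^ (κ / 3)) * (C₁ * q ^ (κ / 3)) * q ^ E := by gcongr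
    _ = C * 2 ^ (2 * M + 1) * C₁ * (q ^ (κ / 3) * q ^ (κ / 3) * q ^ E) := by ring
    _ = C * 2 ^ (2 * M + 1) * C₁ * q ^ (κ / 3 + κ / 3 + E) := by
        rw [← Real.rpow_add hq0, ← Real.rpow_add hq0]
    _ ≤ C * 2 ^ (2 * M + 1) * C₁ * q ^ (p - a) := by
        refine mul_le_mul_of_nonneg_left ?_ (by positivity)
        exact Real.rpow_le_rpow_of_exponent_le hq (by rw [hκ] at *; linarith)

/-- `E(M, δ) < 2` -/
lemma ex2_lt {M : ℕ} {δ : ℝ} (h0 : 0 < δ) (h1 : δ ≤ 1 / 2) (hM : 1 / 2 - 2 / (M : ℝ) < δ) :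
    ex2 M δ < 2 := by
  unfold ex2
  split_ifs with h2
  · have hm : (M : ℝ) ≤ 3 := by exact_mod_cast h2
    have hm0 : (0 : ℝ) ≤ M := by positivity
    rw [div_lt_iff₀ (by linarith)]
    nlinarith [mul_pos h0 h0]
  · have h3 : (4 : ℝ) ≤ M := by exact_mod_cast (by omega : 4 ≤ M)
    have hm0 : (0 : ℝ) < M := by linarith
    have h4 : (M : ℝ) / 2 - 2 < M * δ := by
      have := mul_lt_mul_of_pos_left hM hm0
      have e : (M : ℝ) * (1 / 2 - 2 / M) = M / 2 - 2 := by field_simp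
      linarith
    rw [div_lt_iff₀ (by linarith)]
    nlinarith

/-- `E₁(M, δ) < 1` -/
lemma ex1_lt {M : ℕ} {δ : ℝ} (h2 : 2 ≤ M) (h0 : 0 < δ) (h1 : δ ≤ 1 / 2)
    (hM : 1 / 2 - 1 / (M : ℝ) < δ) : ex1 M δ < 1 := by
  unfold ex1
  have h3 : (2 : ℝ) ≤ M := by exact_mod_cast h2
  have hm0 : (0 : ℝ) < M := by linarith
  have h4 : (M : ℝ) / 2 - 1 < M * δ := by
    have := mul_lt_mul_of_pos_left hM hm0
    have e : (M : ℝ) * (1 / 2 - 1 / M) = M / 2 - 1 := by field_simp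
    linarith
  rw [div_lt_iff₀ (by linarith)]
  nlinarith

/-- half planes, all moduli -/
theorem VP.half2 (h : VP D n N f) {M : ℕ} (hM : ∀ i, m i ≤ M) {δ : ℝ} (h0 : 0 < δ)
    (hδ : 1 / 2 - 2 / (M : ℝ) < δ) : ∃ C η : ℝ, 0 < η ∧ ∀ Q : ℕ, 1 ≤ Q →
      (count N Q (fun q χ => ¬ Cont (f q χ) δ ((Q : ℝ) ^ η)) : ℝ) ≤ C * (Q : ℝ) ^ (2 - η) := by
  obtain ⟨C, B, hC, hB, hd⟩ := h.dens2 hM
  have hδ' : 1 / 2 - 2 / (M : ℝ) < min δ (1 / 2) ∨ M = 0 := by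
    rcases Nat.eq_zero_or_pos M with h1 | h1
    · exact Or.inr h1
    · left
      refine lt_min hδ ?_
      have : (0 : ℝ) < M := by exact_mod_cast h1
      have : 0 < 2 / (M : ℝ) := by positivity
      linarith
  have hlt : ex2 M (min δ (1 / 2)) < 2 := by
    rcases hδ' with h1 | h1
    · exact ex2_lt (lt_min h0 (by norm_num)) (min_le_right _ _) h1
    · subst h1
      unfold ex2
      rw [if_pos (by norm_num)]
      have h2 : 0 < min δ (1 / 2) := lt_min h0 (by norm_num)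
      have h3 : min δ (1 / 2) ≤ 1 / 2 := min_le_right _ _
      rw [div_lt_iff₀ (by linarith)]
      push_cast
      nlinarith
  obtain ⟨η, C', hη, hs⟩ := saving (M := M) hC hB hlt
  refine ⟨C', η, hη, fun Q hQ => ?_⟩
  have hq1 : (1 : ℝ) ≤ Q := by exact_mod_cast hQ
  have h1 := hd Q (min δ (1 / 2)) ((Q : ℝ) ^ η) hQ (lt_min h0 (by norm_num)).le
    (min_le_right _ _) (by positivity)
  refine le_trans ?_ (h1.trans (hs Q hq1))
  have h3 : count N Q (fun q χ => ¬ Cont (f q χ) δ ((Q : ℝ) ^ η)) ≤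
      count N Q (fun q χ => ¬ Cont (f q χ) (min δ (1 / 2)) ((Q : ℝ) ^ η)) :=
    count_mono fun q χ hc hcon => hc (hcon.mono (min_le_left _ _) le_rfl)
  exact_mod_cast h3

/-- half planes, one modulus -/
theorem VP.half1 (h : VP D n N f) {M : ℕ} (hM : ∀ i, m i ≤ M) (hm : ∀ i, 2 ≤ m i) (h2 : 2 ≤ M)
    {δ : ℝ} (h0 : 0 < δ) (hδ : 1 / 2 - 1 / (M : ℝ) < δ) : ∃ C η : ℝ, 0 < η ∧ ∀ q : ℕ, 2 ≤ q →
      Nat.Coprime q N →
      (countq q (fun χ => ¬ Cont (f q χ) δ ((q : ℝ) ^ η)) : ℝ) ≤ C * (q : ℝ) ^ (1 - η) := by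
  obtain ⟨C, B, hC, hB, hd⟩ := h.dens1 hM hm
  have hM0 : (0 : ℝ) < M := by exact_mod_cast (by omega : 0 < M)
  have hlt : ex1 M (min δ (1 / 2)) < 1 := by
    refine ex1_lt h2 (lt_min h0 (by norm_num)) (min_le_right _ _) (lt_min hδ ?_)
    have : 0 < 1 / (M : ℝ) := by positivity
    linarith
  obtain ⟨η, C', hη, hs⟩ := saving (M := M) hC hB hlt
  refine ⟨C', η, hη, fun q hq hqN => ?_⟩
  have hq1 : (1 : ℝ) ≤ q := by exact_mod_cast (by omega : 1 ≤ q)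
  have h1 := hd q (min δ (1 / 2)) ((q : ℝ) ^ η) hq hqN (lt_min h0 (by norm_num)).le
    (min_le_right _ _) (by positivity)
  refine le_trans ?_ (h1.trans (hs q hq1))
  have h3 : countq q (fun χ => ¬ Cont (f q χ) δ ((q : ℝ) ^ η)) ≤
      countq q (fun χ => ¬ Cont (f q χ) (min δ (1 / 2)) ((q : ℝ) ^ η)) :=
    countq_mono fun χ hc hcon => hc (hcon.mono (min_le_left _ _) le_rfl)
  exact_mod_cast h3

end Pool.Agent.R399.TV
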